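import Pool.Agent.Helper90.SchrodOp
import Pool.Agent.Helper90.Hull
import Pool.Agent.Helper90.EvenPot

/-!
Own statement beside the frozen one (MP_ad681e): there is a limit-periodic potential `V` and a
potential `W` in its hull such that `H_V` has an eigenvector in `ℓ²(ℤ)` and `H_W` has none.
Library: `Pool/Agent/Helper90`.
-/

set_option autoImplicit false

open Filter Topology

namespace Pool.Agent.Results.MP_ad681e_mp.PurePointLost

/-- `P : ℤ → ℝ` is periodic. -/
def IsPeriodic (P : ℤ → ℝ) : Prop := ∃ p : ℕ, 1 ≤ p ∧ ∀ n : ℤ, P (n + p) = P n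

/-- Uniform limit of a sequence of periodic functions. -/
def LimitPeriodic (V : ℤ → ℝ) : Prop :=
  ∃ P : ℕ → ℤ → ℝ, (∀ k, IsPeriodic (P k)) ∧ TendstoUniformly P V atTop

/-- The hull of `V`: all uniform limits of sequences of translates of `V`. -/
def hull (V : ℤ → ℝ) : Set (ℤ → ℝ) :=
  {W | ∃ k : ℕ → ℤ, TendstoUniformly (fun j n => V (n + k j)) W atTop}

/-- The Schrodinger operator `Δ + V`. -/
noncomputable def schrodinger (V : ℤ → ℝ) (ψ : ℤ → ℂ) : ℤ → ℂ :=
  fun n => ψ (n + 1) + ψ (n - 1) + (V n : ℂ) * ψ n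

/-- `ψ` is an eigenvector of `Δ + V` in `ℓ²(ℤ)` with eigenvalue `E`. -/
def IsEigenvector (V : ℤ → ℝ) (E : ℂ) (ψ : ℤ → ℂ) : Prop :=
  Memℓp ψ 2 ∧ ψ ≠ 0 ∧ schrodinger V ψ = fun n => E * ψ n

/-- `pp` belongs to the spectral type of `Δ + V`: the pure point subspace (the closed span of
the eigenvectors) is not zero, that is, there is an eigenvector. -/
def HasPurePoint (V : ℤ → ℝ) : Prop := ∃ (E : ℂ) (ψ : ℤ → ℂ), IsEigenvector V E ψ

theorem result :
    ∃ V W : ℤ → ℝ, LimitPeriodic V ∧ W ∈ hull V ∧ LimitPeriodic W ∧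
      HasPurePoint V ∧ ¬ HasPurePoint W := by
  obtain ⟨W, hWB, hWhull, hWno⟩ := Helper90.Hull.exists_hull Helper90.EvenPot.V
    (2 * Real.exp 2) Helper90.EvenPot.V_bound Helper90.EvenPot.V_almostPeriodic
    Helper90.EvenPot.V_even
  have hlp : ∀ U : ℤ → ℝ, (∀ ε : ℝ, 0 < ε → ∃ P : ℤ → ℝ,
      IsPeriodic P ∧ ∀ n : ℤ, |U n - P n| < ε) → LimitPeriodic U := by
    intro U hU
    choose P hP hPU using fun k : ℕ => hU (1 / ((k : ℝ) + 1)) (by positivity)
    refine ⟨P, hP, ?_⟩
    rw [Metric.tendstoUniformly_iff]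
    intro ε hε
    obtain ⟨N, hN⟩ := exists_nat_one_div_lt hε
    filter_upwards [eventually_ge_atTop N] with k hk n
    rw [Real.dist_eq]
    refine (hPU k n).trans_le (le_trans ?_ hN.le)
    apply one_div_le_one_div_of_le (by positivity)
    have : (N : ℝ) ≤ k := by exact_mod_cast hk
    linarith
  have hVlp : ∀ ε : ℝ, 0 < ε → ∃ P : ℤ → ℝ,
      IsPeriodic P ∧ ∀ n : ℤ, |Helper90.EvenPot.V n - P n| < ε := by
    intro ε hε
    obtain ⟨K, hK⟩ := Helper90.EvenPot.exists_K ε hε
    refine ⟨Helper90.EvenPot.VK K, ⟨2 * 4 ^ K, by have : 0 < 2 * 4 ^ K := by positivity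
                                                  omega, fun n => ?_⟩,
      fun n => lt_of_le_of_lt (Helper90.EvenPot.V_sub_VK K n) hK⟩
    have := Helper90.EvenPot.VK_periodic K n
    push_cast
    exact this
  refine ⟨Helper90.EvenPot.V, W, hlp _ hVlp, ?_, hlp _ ?_, ?_, ?_⟩
  · -- W in the hull
    choose k hk using fun j : ℕ => hWhull (1 / ((j : ℝ) + 1)) (by positivity)
    refine ⟨k, ?_⟩
    rw [Metric.tendstoUniformly_iff]
    intro ε hε
    obtain ⟨N, hN⟩ := exists_nat_one_div_lt hε
    filter_upwards [eventually_ge_atTop N] with j hj n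
    rw [Real.dist_eq]
    refine (hk j n).trans_le (le_trans ?_ hN.le)
    apply one_div_le_one_div_of_le (by positivity)
    have : (N : ℝ) ≤ j := by exact_mod_cast hj
    linarith
  · -- W limit periodic
    intro ε hε
    obtain ⟨k, hk⟩ := hWhull (ε / 2) (by linarith)
    obtain ⟨P, ⟨p, hp, hPp⟩, hPV⟩ := hVlp (ε / 2) (by linarith)
    refine ⟨fun n => P (n + k), ⟨p, hp, fun n => ?_⟩, fun n => ?_⟩
    · have := hPp (n + k)
      change P (n + (p : ℤ) + k) = P (n + k)
      rw [show n + (p : ℤ) + k = n + k + p by ring]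
      exact this
    · have h1 := hk n
      have h2 := hPV (n + k)
      calc |W n - P (n + k)| = |(W n - Helper90.EvenPot.V (n + k)) +
            (Helper90.EvenPot.V (n + k) - P (n + k))| := by congr 1; ring
        _ ≤ |W n - Helper90.EvenPot.V (n + k)| + |Helper90.EvenPot.V (n + k) - P (n + k)| :=
            abs_add_le _ _
        _ < ε := by linarith
  · -- the eigenvector of V
    refine ⟨0, fun n => (Helper90.EvenPot.psi n : ℂ), ?_, ?_, ?_⟩
    · apply memℓp_gen
      simp only [Complex.norm_real, ENNReal.toReal_ofNat, Real.rpow_ofNat, Real.norm_eq_abs,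
        sq_abs]
      exact Helper90.EvenPot.psi_summable
    · intro h0
      have h1 := congrFun h0 0
      exact (Real.exp_pos _).ne' (Complex.ofReal_eq_zero.mp h1)
    · funext n
      have h := Helper90.EvenPot.psi_eq n
      change (Helper90.EvenPot.psi (n + 1) : ℂ) + (Helper90.EvenPot.psi (n - 1) : ℂ) +
        (Helper90.EvenPot.V n : ℂ) * (Helper90.EvenPot.psi n : ℂ) =
        (0 : ℂ) * (Helper90.EvenPot.psi n : ℂ)
      exact_mod_cast h
  · -- no eigenvector for W
    rintro ⟨E, φ, hφ, hφ0, hφE⟩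
    have hsymm : ((Helper90.Schrod.Hop W (2 * Real.exp 2) hWB :
        Helper90.Schrod.L2 →L[ℂ] Helper90.Schrod.L2) :
        Helper90.Schrod.L2 →ₗ[ℂ] Helper90.Schrod.L2).IsSymmetric :=
      Helper90.Schrod.HL_symm W (2 * Real.exp 2) hWB
    let w : Helper90.Schrod.L2 := ⟨φ, hφ⟩
    have hwφ : ∀ n, w n = φ n := fun n => rfl
    have hw : Helper90.Schrod.Hop W (2 * Real.exp 2) hWB w = E • w := by
      ext n
      rw [Helper90.Schrod.Hop_apply]
      exact congrFun hφE n
    have hw0 : w ≠ 0 := by
      intro h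
      apply hφ0
      funext n
      have : w n = (0 : Helper90.Schrod.L2) n := by rw [h]
      exact this
    have hEv : Module.End.HasEigenvalue
        ((Helper90.Schrod.Hop W (2 * Real.exp 2) hWB :
          Helper90.Schrod.L2 →L[ℂ] Helper90.Schrod.L2) :
          Helper90.Schrod.L2 →ₗ[ℂ] Helper90.Schrod.L2) E := by
      apply Module.End.hasEigenvalue_of_hasEigenvector (x := w)
      exact ⟨Module.End.mem_eigenspace_iff.mpr hw, hw0⟩
    have hreal := hsymm.conj_eigenvalue_eq_self hEv
    obtain ⟨e, he⟩ := Complex.conj_eq_iff_real.mp hreal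
    have hsum : Summable fun n => ‖φ n‖ ^ 2 := by
      have := hφ.summable (by norm_num : 0 < (2 : ENNReal).toReal)
      simpa using this
    have heq : ∀ n, φ (n + 1) + φ (n - 1) + (W n : ℂ) * φ n = (e : ℂ) * φ n := by
      intro n
      have h3 := congrFun hφE n
      rw [he] at h3
      exact h3
    have hre := hWno e (fun n => (φ n).re) (by
      refine Summable.of_nonneg_of_le (fun n => by positivity) (fun n => ?_) hsum
      rw [← sq_abs]
      gcongr
      exact Complex.abs_re_le_norm _) (fun n => by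
        have := congrArg Complex.re (heq n)
        simpa using this)
    have him := hWno e (fun n => (φ n).im) (by
      refine Summable.of_nonneg_of_le (fun n => by positivity) (fun n => ?_) hsum
      rw [← sq_abs]
      gcongr
      exact Complex.abs_im_le_norm _) (fun n => by
        have := congrArg Complex.im (heq n)
        simpa using this)
    apply hφ0
    funext n
    apply Complex.ext
    · simpa using congrFun hre n
    · simpa using congrFun him n

end Pool.Agent.Results.MP_ad681e_mp.PurePointLost
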